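import Pool.Agent.Lib.H35Y.Ham

/-!
# H35Y, file HamL: the Hamiltonian cycle of file Ham as a list (helper63's `H63D.Ham`)
-/

set_option autoImplicit false

namespace H35Y

open Finset H98M H85TF

variable {V : Type*} [DecidableEq V]

/-- A Hamiltonian cycle of Mathlib as a list. -/
theorem list_of_ham [Fintype V] {G : Finset (Sym2 V)} {a : V}
    {c : (SimpleGraph.fromEdgeSet (G : Set (Sym2 V))).Walk a a} (hc : c.IsHamiltonianCycle) :
    ∃ l : List V, 3 ≤ l.length ∧ l.Nodup ∧ (∀ v, v ∈ l) ∧ l.IsChain (fun a b => s(a, b) ∈ G) ∧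
      (∀ a ∈ l.head?, ∀ b ∈ l.getLast?, s(b, a) ∈ G) := by
  classical
  have hadj : ∀ x y, (SimpleGraph.fromEdgeSet (G : Set (Sym2 V))).Adj x y → s(x, y) ∈ G := by
    intro x y h
    rw [SimpleGraph.fromEdgeSet_adj] at h
    exact_mod_cast h.1
  have hlen := hc.isCycle.three_le_length
  have hnd := hc.isCycle.support_nodup
  have hcount := (SimpleGraph.Walk.isHamiltonianCycle_iff_isCycle_and_support_count_tail_eq_one.1
    hc).2
  match c, hlen, hnd, hcount with
  | .cons (v := u) h p, hlen, hnd, hcount =>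
    rw [SimpleGraph.Walk.support_cons, List.tail_cons] at hnd
    simp only [SimpleGraph.Walk.support_cons, List.tail_cons] at hcount
    rw [SimpleGraph.Walk.length_cons] at hlen
    refine ⟨p.support, ?_, hnd, ?_, ?_, ?_⟩
    · rw [SimpleGraph.Walk.length_support]
      exact hlen
    · intro v
      rw [← List.count_pos_iff, hcount v]
      exact Nat.one_pos
    · exact p.isChain_adj_support.imp fun x y hxy => hadj x y hxy
    · intro x hx y hy
      have h1 : x = u := by
        rw [List.head?_eq_some_head p.support_ne_nil, SimpleGraph.Walk.head_support] at hx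
        simpa using hx.symm
      have h2 : y = a := by
        rw [List.getLast?_eq_some_getLast p.support_ne_nil, SimpleGraph.Walk.getLast_support] at hy
        simpa using hy.symm
      rw [h1, h2]
      exact hadj _ _ h

/-- (E0) in list form. -/
theorem ham_list [Fintype V] {G : Finset (Sym2 V)} (hG : ∀ e ∈ G, ¬ e.IsDiag)
    (h3 : 3 ≤ Fintype.card V) (hc : ¬ Disc univ G) (hcut : ∀ z, ¬ Disc (univ.erase z) G)
    (he : G.card ≤ Fintype.card V) :
    ∃ l : List V, 3 ≤ l.length ∧ l.Nodup ∧ (∀ v, v ∈ l) ∧ l.IsChain (fun a b => s(a, b) ∈ G) ∧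
      (∀ a ∈ l.head?, ∀ b ∈ l.getLast?, s(b, a) ∈ G) := by
  obtain ⟨a, c, h⟩ := ham hG h3 hc hcut he
  exact list_of_ham h

end H35Y
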