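import Pool.Agent.Lib.H85TF.P2

/-!
# H35Y, file Ham: a 2-connected graph with at most as many edges as vertices is a Hamiltonian cycle
-/

set_option autoImplicit false

namespace H35Y

open Finset H98M H85TF

variable {V : Type*} [DecidableEq V]

/-- Handshake. -/
theorem sum_dg [Fintype V] {G : Finset (Sym2 V)} (hG : ∀ e ∈ G, ¬ e.IsDiag) :
    ∑ v, dg G v = 2 * G.card := by
  classical
  unfold dg
  simp_rw [card_filter]
  rw [sum_comm, mul_comm, card_eq_sum_ones, sum_mul]
  refine sum_congr rfl fun e he => ?_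
  rw [← card_filter]
  induction e using Sym2.ind with
  | _ a b =>
    have hab : a ≠ b := fun h => hG _ he (by simpa using h)
    have h1 : (univ.filter fun v => v ∈ s(a, b)) = {a, b} := by
      ext v
      simp
    rw [h1, card_pair hab, one_mul]

/-- Every vertex of a 2-connected graph with at least three vertices has degree at least two. -/
theorem two_le_dg [Fintype V] {G : Finset (Sym2 V)} (hG : ∀ e ∈ G, ¬ e.IsDiag)
    (h3 : 3 ≤ Fintype.card V) (hc : ¬ Disc univ G) (hcut : ∀ z, ¬ Disc (univ.erase z) G) (v : V) :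
    2 ≤ dg G v := by
  classical
  obtain ⟨F, h1, -, h2⟩ := cov_vertex hG h3 hc hcut v
  have h4 := h2 v (mem_singleton_self v)
  rw [← h4]
  exact card_le_card (filter_subset_filter _ h1)

/-- (E0), degrees: all degrees are two and there are as many edges as vertices. -/
theorem dg_eq_two [Fintype V] {G : Finset (Sym2 V)} (hG : ∀ e ∈ G, ¬ e.IsDiag)
    (h3 : 3 ≤ Fintype.card V) (hc : ¬ Disc univ G) (hcut : ∀ z, ¬ Disc (univ.erase z) G)
    (he : G.card ≤ Fintype.card V) : (∀ v, dg G v = 2) ∧ G.card = Fintype.card V := by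
  classical
  have h2 := two_le_dg hG h3 hc hcut
  have hs := sum_dg hG
  have h5 : ∑ v : V, 2 ≤ ∑ v, dg G v := sum_le_sum fun v _ => h2 v
  have h6 : ∑ _v : V, 2 = 2 * Fintype.card V := by
    rw [sum_const, card_univ, smul_eq_mul, mul_comm]
  have h7 : G.card = Fintype.card V := by omega
  refine ⟨fun v => ?_, h7⟩
  by_contra hv
  have h8 : 2 < dg G v := lt_of_le_of_ne (h2 v) (Ne.symm hv)
  have h9 : ∑ v : V, 2 < ∑ v, dg G v := sum_lt_sum (fun v _ => h2 v) ⟨v, mem_univ v, h8⟩
  omega

/-- A set of vertices which contains `a` and every neighbour of its elements is everything. -/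
theorem eq_univ_of_closed [Fintype V] {G : Finset (Sym2 V)} (hc : ¬ Disc univ G) {C : Finset V}
    (hC : C.Nonempty) (h : ∀ x ∈ C, ∀ y, s(x, y) ∈ G → y ∈ C) : C = univ := by
  classical
  by_contra hne
  refine hc ⟨C, univ \ C, hC, ?_, disjoint_sdiff, union_sdiff_of_subset (subset_univ _), ?_⟩
  · rw [nonempty_iff_ne_empty]
    intro h1
    exact hne (univ_subset_iff.1 (sdiff_eq_empty_iff_subset.1 h1))
  · intro x hx y hy hxy
    exact (mem_sdiff.1 hy).2 (h x hx y hxy)

/-- (E0): a 2-connected graph with at most as many edges as vertices is a Hamiltonian cycle. -/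
theorem ham [Fintype V] {G : Finset (Sym2 V)} (hG : ∀ e ∈ G, ¬ e.IsDiag)
    (h3 : 3 ≤ Fintype.card V) (hc : ¬ Disc univ G) (hcut : ∀ z, ¬ Disc (univ.erase z) G)
    (he : G.card ≤ Fintype.card V) :
    ∃ (a : V) (c : (SimpleGraph.fromEdgeSet (G : Set (Sym2 V))).Walk a a), c.IsHamiltonianCycle := by
  classical
  obtain ⟨h2, h7⟩ := dg_eq_two hG h3 hc hcut he
  set Γ := SimpleGraph.fromEdgeSet (G : Set (Sym2 V)) with hΓ
  have hadj : ∀ x y, Γ.Adj x y ↔ s(x, y) ∈ G := by
    intro x y
    rw [hΓ, SimpleGraph.fromEdgeSet_adj]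
    constructor
    · exact fun h => by exact_mod_cast h.1
    · exact fun h => ⟨by exact_mod_cast h, fun e => hG _ h (by simpa using e)⟩
  have hedge : Γ.edgeFinset = G := by
    ext e
    rw [SimpleGraph.mem_edgeFinset]
    induction e using Sym2.ind with
    | _ a b => exact hadj a b
  have hconn : Γ.Connected := by
    have hne : Nonempty V := Fintype.card_pos_iff.1 (by omega)
    refine { preconnected := fun x y => ?_, nonempty := hne }
    obtain ⟨p, -⟩ := path_of_not_disc hc (mem_univ x) (mem_univ y)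
    exact ⟨p⟩
  have hcyc : ¬ Γ.IsAcyclic := by
    intro h
    have h4 : Γ.IsTree := ⟨hconn, h⟩
    have h5 := h4.card_edgeFinset
    rw [hedge] at h5
    omega
  obtain ⟨a, c, hcy⟩ : ∃ (a : V) (c : Γ.Walk a a), c.IsCycle := by
    unfold SimpleGraph.IsAcyclic at hcyc
    push Not at hcyc
    exact hcyc
  have hdeg : ∀ v, Γ.degree v = 2 := by
    intro v
    rw [← h2 v, ← SimpleGraph.card_incidenceFinset_eq_degree]
    unfold dg
    congr 1
    ext e
    rw [SimpleGraph.mem_incidenceFinset, mem_filter, SimpleGraph.incidenceSet, Set.mem_ofPred_eq,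
      ← SimpleGraph.mem_edgeFinset, hedge]
  have hall : c.support.toFinset = univ := by
    refine eq_univ_of_closed hc ⟨a, by simp⟩ ?_
    intro x hx y hxy
    rw [List.mem_toFinset] at hx ⊢
    have h4 := hcy.ncard_neighborSet_toSubgraph_eq_two hx
    have h5 : c.toSubgraph.neighborSet x ⊆ Γ.neighborSet x := c.toSubgraph.neighborSet_subset x
    have h6 : (Γ.neighborSet x).ncard = 2 := by
      rw [← hdeg x, ← SimpleGraph.card_neighborSet_eq_degree, Set.ncard_eq_toFinset_card',
        Set.toFinset_card]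
    have h8 : c.toSubgraph.neighborSet x = Γ.neighborSet x :=
      Set.eq_of_subset_of_ncard_le h5 (by rw [h4, h6]) (Set.toFinite _)
    have h9 : y ∈ c.toSubgraph.neighborSet x := by
      rw [h8]
      exact (hadj x y).2 hxy
    rw [← SimpleGraph.Walk.mem_verts_toSubgraph]
    exact c.toSubgraph.edge_vert (SimpleGraph.Subgraph.Adj.symm h9)
  refine ⟨a, c, SimpleGraph.Walk.isHamiltonianCycle_iff_isCycle_and_support_count_tail_eq_one.2
    ⟨hcy, fun x => ?_⟩⟩
  refine List.count_eq_one_of_mem hcy.support_nodup ?_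
  have hx : x ∈ c.support := by
    rw [← List.mem_toFinset, hall]
    exact mem_univ x
  by_cases hxa : x = a
  · rw [hxa]
    exact SimpleGraph.Walk.end_mem_tail_support hcy.not_nil
  · rw [SimpleGraph.Walk.mem_support_iff] at hx
    exact hx.resolve_left hxa

end H35Y
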